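import Pool.Agent.DTH.Final2

set_option autoImplicit false

namespace Pool.Agent.Results.MP_365ea8_co.BlockLattice

open Classical Filter

/-- At the order of the conjectured threshold the blocks of a random family of `k`-sets generate
the whole lattice of admissible integer vectors on `t`-sets, for all `t < k`. -/
theorem result (t k : ℕ) (htk : t < k) (a : ℝ) (ha : 0 < a) :
    ∃ C : ℝ, ∃ N : ℕ, ∀ n : ℕ, N ≤ n → ∀ p : ℝ, 0 ≤ p → p ≤ 1 →
      C * Real.log n ≤ p * (n : ℝ) ^ (k - t) →
      1 - (n : ℝ) ^ (-a) ≤ ∑ A ∈ (((Finset.range n).powersetCard k).powerset.filter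
        (fun A : Finset (Finset ℕ) => ∀ c : Finset ℕ → ℤ,
          (∀ I ⊆ Finset.range n, I.card ≤ t →
            ((Nat.choose (k - I.card) (t - I.card) : ℕ) : ℤ) ∣
              ∑ T ∈ ((Finset.range n).powersetCard t).filter (fun T : Finset ℕ => I ⊆ T), c T) →
          ∃ w : Finset ℕ → ℤ, ∀ T ∈ (Finset.range n).powersetCard t,
            ∑ B ∈ A.filter (fun B : Finset ℕ => T ⊆ B), w B = c T)),
        p ^ A.card * (1 - p) ^ (Nat.choose n k - A.card) := by
  obtain ⟨C, N, h⟩ := Pool.Agent.DTH.main_lat t k htk a ha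
  refine ⟨C, N, ?_⟩
  intro n hn p hp0 hp1 hp
  have := h n hn p hp0 hp1 hp
  convert this using 3

end Pool.Agent.Results.MP_365ea8_co.BlockLattice
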