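import Pool.Agent.DTH.Sharp2

set_option autoImplicit false

namespace Pool.Agent.Results.MP_365ea8_co.FractionalHitting

open Classical

/-- probability of a property of the `p`-random family of `k`-subsets of `{0, …, n-1}` -/
noncomputable def prob (n k : ℕ) (p : ℝ) (P : Finset (Finset ℕ) → Prop) : ℝ :=
  ∑ A ∈ (((Finset.range n).powersetCard k).powerset.filter P),
    p ^ A.card * (1 - p) ^ (Nat.choose n k - A.card)

/-- every `t`-subset of `{0, …, n-1}` is contained in at least `lam` members of `A` -/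
def Covers (t n lam : ℕ) (A : Finset (Finset ℕ)) : Prop :=
  ∀ T ∈ (Finset.range n).powersetCard t, lam ≤ (A.filter (fun B : Finset ℕ => T ⊆ B)).card

/-- block weights in `[0,1]` on the members of `A` covering every `t`-subset of `{0, …, n-1}`
with total weight exactly `lam` -/
def FracDesign (t n lam : ℕ) (A : Finset (Finset ℕ)) : Prop :=
  ∃ w : Finset ℕ → ℝ, (∀ B ∈ A, 0 ≤ w B ∧ w B ≤ 1) ∧
    ∀ T ∈ (Finset.range n).powersetCard t,
      ∑ B ∈ A.filter (fun B : Finset ℕ => T ⊆ B), w B = lam

/-- Uniformly in `p`, up to an event of small probability a fractional `t`-`(n,k,lam)` design with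
block weights in `[0,1]` exists in the random family as soon as every `t`-set is covered `lam`
times. -/
theorem result (t k lam : ℕ) (ht : 1 ≤ t) (htk : t < k) (hlam : 1 ≤ lam) (ε : ℝ) (hε : 0 < ε) :
    ∃ N : ℕ, ∀ n : ℕ, N ≤ n → ∀ p : ℝ, 0 ≤ p → p ≤ 1 →
      prob n k p (fun A => Covers t n lam A ∧ ¬ FracDesign t n lam A) ≤ ε := by
  obtain ⟨N, h⟩ := Pool.Agent.DTH.main_hit t k lam ht htk hlam ε hε
  refine ⟨N, ?_⟩
  intro n hn p hp0 hp1
  have := h n hn p hp0 hp1
  unfold Pool.Agent.DTH.prob Pool.Agent.DTH.Covers Pool.Agent.DTH.FracDesign at this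
  unfold prob Covers FracDesign
  convert this using 3

end Pool.Agent.Results.MP_365ea8_co.FractionalHitting
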