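import Pool.Agent.DTH.Final

set_option autoImplicit false

namespace Pool.Agent.Results.MP_365ea8_co.RepeatedBlocks

open Classical Filter

/-- Designs with repeated blocks in random families of `k`-sets, at the order of the conjectured
threshold, for all `t < k`. -/
theorem result (t k : ℕ) (htk : t < k) (δ a : ℝ) (hδ : 0 < δ) (ha : 0 < a) :
    ∃ C : ℝ, ∃ N : ℕ, ∀ n : ℕ, N ≤ n → ∀ p : ℝ, 0 ≤ p → p ≤ 1 →
      C * Real.log n ≤ p * (n : ℝ) ^ (k - t) →
      1 - (n : ℝ) ^ (-a) ≤ ∑ A ∈ (((Finset.range n).powersetCard k).powerset.filter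
        (fun A : Finset (Finset ℕ) => ∃ lam₀ : ℕ, ∀ lam : ℕ, lam₀ ≤ lam →
          (∀ i : ℕ, i < t → Nat.choose (k - i) (t - i) ∣ lam * Nat.choose (n - i) (t - i)) →
          ∃ w : Finset ℕ → ℕ,
            (∀ B ∈ A, |(w B : ℝ) - lam / (p * Nat.choose (n - t) (k - t))| ≤
              δ * (lam / (p * Nat.choose (n - t) (k - t)))) ∧
            ∀ T ∈ (Finset.range n).powersetCard t,
              ∑ B ∈ A.filter (fun B : Finset ℕ => T ⊆ B), w B = lam)),
        p ^ A.card * (1 - p) ^ (Nat.choose n k - A.card) := by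
  obtain ⟨C, N, h⟩ := Pool.Agent.DTH.main_rep t k htk δ a hδ ha
  refine ⟨C, N, ?_⟩
  intro n hn p hp0 hp1 hp
  have := h n hn p hp0 hp1 hp
  convert this using 3

end Pool.Agent.Results.MP_365ea8_co.RepeatedBlocks
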